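import Pool.Agent.OVW.StmtsB14

/-!
# Block B, Lemma 1: from the density theorem for all levels to arbitrary levels
-/

set_option autoImplicit false

open Classical

namespace Pool.Agent.OVW

set_option linter.unusedSectionVars false

/-- Lemma 1. -/
theorem B1_thm (h1 : Stmt_B_DCP) (h2 : Stmt_B_PHL) (h3 : Stmt_B_PHA) : Stmt_B1 := by
  intro M _ _ R _ κ n δ lam E hκ hn hD hlam hE hmono hδ
  obtain rfl | ⟨m, rfl⟩ := cases_succ n
  · exact absurd hn (lt_irrefl _)
  have hmono' : ∀ j ≤ m, ∀ i < j, lam i < lam j := fun j hj => hmono j (lt_succ.2 hj)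
  have hle : ∀ r ≤ m, lam r ≤ lam m := by
    intro r hr
    rcases hr.lt_or_eq with h | rfl
    · exact (hmono' m le_rfl r h).le
    · exact le_rfl
  have key : havg (W κ (lam m)) (fun y => FW κ (m + 1) (fun z => ind M (E (Phi lam y z)))) =
      havg (rng (m + 1)) (fun i => havg (W κ (lam i)) (fun x => ind M (E x))) := by
    unfold FW
    rw [havg_comm (R := R) (by fun_prop)]
    apply havg_congr
    intro r hr
    have hr' : r ≤ m := lt_succ.1 (mem_rng.1 hr)
    exact h3 M R lam κ (lam m) r (fun x => ind M (E x)) hlam (by fun_prop) hκ (hle r hr')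
      (fun j hj => hmono' j (hj.trans hr'))
  rw [← key] at hδ
  obtain ⟨y, hy, hyδ⟩ := exists_le_of_le_havg (R := R) (by fun_prop) (W_nonempty hκ _) hδ
  have hF : ¬ Free κ (m + 1) (fun z => E (Phi lam y z)) := fun hF =>
    absurd (h1 M R κ δ (m + 1) (fun z => E (Phi lam y z)) hD (by fun_prop) hF) (not_lt.2 hyδ)
  unfold Free at hF
  push Not at hF
  obtain ⟨x, hx, w, hw, hl, hEx, hEw⟩ := hF
  obtain ⟨hxm, v, hv, hvl, hvE⟩ :=
    h2 M R lam κ m (lam m) y hlam hy le_rfl hmono' x hx w hw (lt_succ.1 hl)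
  refine ⟨x.len, x.len + 1 + w.len, ?_, hl, Phi lam y x, hxm, v, ?_, hvl, hEx, ?_⟩
  · exact lt_of_lt_of_le (lt_succ.2 le_rfl) le_self_add
  · refine mem_Wlt.2 ⟨?_, (mem_Wlt.1 hv).2⟩
    rw [← hvl]
    have : v.len < 1 + v.len := by
      rw [add_comm]
      exact lt_succ.2 le_rfl
    refine lt_of_lt_of_le this ?_
    rw [add_assoc]
    exact le_add_self
  · intro c hc
    rw [← hvE c hc]
    exact hEw c hc

end Pool.Agent.OVW
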