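import Pool.Agent.OVW.StmtsB14

/-!
# OVW, block B, Lemma 2 (random sets)
-/

set_option autoImplicit false
set_option linter.unusedSectionVars false

namespace Pool.Agent.OVW

open Classical

namespace B2

variable {M : Type} [Arith M] [HasWorld M] {R : Set (M → M)} [IsWorld R]

theorem ind_le_one (p : Prop) : ind M p ≤ 1 := by
  unfold ind
  split_ifs
  · exact le_rfl
  · exact zero_le_one

theorem rng_nonempty {h : M} (hh : 0 < h) : ∃ i, i ∈ rng h := ⟨0, mem_rng.2 hh⟩

theorem FW_le_one {κ h : M} (hκ : 0 < κ) (hh : 0 < h) {E : Wd M → Prop} (hE : Rec R E) :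
    FW κ h (fun x => ind M (E x)) ≤ 1 := by
  unfold FW
  refine havg_le (R := R) (by fun_prop) (rng_nonempty hh) fun l _ => ?_
  exact havg_le (R := R) (by fun_prop) (W_nonempty hκ l) fun x _ => ind_le_one _

end B2

theorem B2_thm (h1 : Stmt_B_DCP) : Stmt_B2 := by
  intro M _ _ R _ Ω _ S κ h d Es hκ hh hd hS hD hEs hE
  have hne := B2.rng_nonempty hh
  -- the average of the densities
  have e1 : d ≤ havg S (fun ω => FW κ h (fun z => ind M (Es ω z))) := by
    have e2 : havg S (fun ω => FW κ h (fun z => ind M (Es ω z))) =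
        havg (rng h) (fun l => havg (W κ l) (fun z => hpr S (fun ω => Es ω z))) := by
      unfold FW
      rw [havg_comm (R := R) (f := fun ω l => havg (W κ l) (fun z => ind M (Es ω z)))
        (by fun_prop)]
      refine havg_congr fun l _ => ?_
      rw [havg_comm (R := R) (f := fun ω z => ind M (Es ω z)) (by fun_prop)]
      rfl
    rw [e2]
    refine le_havg (R := R) (by fun_prop) hne fun l hl => ?_
    refine le_havg (R := R) (by fun_prop) (W_nonempty hκ l) fun z hz => ?_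
    exact hE z (mem_Wlt_iff.2 ⟨l, mem_rng.1 hl, hz⟩)
  have e3 := hpr_markov (R := R) (S := S) (f := fun ω => FW κ h (fun z => ind M (Es ω z)))
    (by fun_prop) (fun ω _ => B2.FW_le_one (R := R) hκ hh (by fun_prop)) hS hd.le e1
  have e4 : ∀ ω, d / 2 ≤ FW κ h (fun z => ind M (Es ω z)) →
      ∃ p ∈ lineSet κ h, IsLine κ p.1 p.2 (Es ω) := by
    intro ω hω
    have h4 : ¬ Free κ h (Es ω) := fun hF =>
      absurd (h1 M R κ (d / 2) h (Es ω) hD (by fun_prop) hF) (not_lt.2 hω)
    unfold Free at h4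
    push Not at h4
    obtain ⟨x, hx, w, hw, hlen, hL⟩ := h4
    refine ⟨(x, w), ?_, hL⟩
    unfold lineSet
    exact (mem_filter (R := R) (by fun_prop)).2 ⟨mem_prod.2 ⟨hx, hw⟩, hlen⟩
  have e5 : ∃ p, p ∈ lineSet κ h := by
    obtain ⟨ω, _, hω⟩ := exists_of_hpr_pos (R := R) (by fun_prop) (lt_of_lt_of_le (half_pos hd) e3)
    obtain ⟨p, hp, _⟩ := e4 ω hω
    exact ⟨p, hp⟩
  obtain ⟨p, hp, h6⟩ := hpr_pigeon (R := R) (S := S) (T := lineSet κ h)
    (p := fun ω => d / 2 ≤ FW κ h (fun z => ind M (Es ω z)))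
    (q := fun ω p => IsLine κ p.1 p.2 (Es ω)) (by fun_prop) (by fun_prop) e5
    (fun ω _ hω => e4 ω hω)
  exact ⟨p, hp, (div_le_div_of_nonneg_right e3 (cK_nonneg _)).trans h6⟩

end Pool.Agent.OVW
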