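import Pool.Agent.OVW.StmtsB14

/-!
# OVW, block B, Lemma 4 (insensitive top level)
-/

set_option autoImplicit false
set_option linter.unusedSectionVars false

namespace Pool.Agent.OVW

open Classical

theorem B4_thm (h1 : Stmt_B3) (h2 : Stmt_B_MXM) (h3 : Stmt_B_SEL) : Stmt_B4 := by
  intro M _ _ R _ k a h N β Q G L hk hβ hh hD ha hQ hG hins hL hcard hP
  obtain ⟨s, hs, L', hL', hc', hP'⟩ := h3 M R k a N h β Q G L hQ hG hk ha hβ hh hins hL hcard hP
  obtain ⟨l, hl, x, hx, w, hw, hlen, hQx, hline⟩ := h1 M R k h N (β / 4)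
    (fun v => Q (mix k s v)) (fun u => G (mix k s u)) L' hk hh hD (by fun_prop) (by fun_prop)
    (fun l hl => hL l (hL' l hl)) hc' (fun l hl => (hP' l hl).2)
  have hx' := mem_W.1 hx
  have hw' := mem_Wlt.1 hw
  have hsl : s.get x.len ≠ k := by rw [hx'.1]; exact (hP' l hl).1
  obtain ⟨m1, m2, m3⟩ := (h2 M R k N s hs).2 x w (by rw [hx'.1]; exact hx)
    (mem_W.2 ⟨rfl, hw'.2⟩) (by rw [hx'.1]; exact hlen) hsl
  rw [hx'.1] at m1
  have hVlen := (mem_W.1 m2).1
  have hwN : w.len < N := by rw [← hlen]; exact lt_of_lt_of_le (lt_succ.2 le_rfl) (by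
    rw [add_comm w.len 1, add_assoc]; exact le_add_self)
  refine ⟨l, hL' l hl, mix k s x, m1, mixv k (s.drop (x.len + 1)) w, ?_, ?_, hQx, ?_⟩
  · exact mem_Wlt.2 ⟨by rw [hVlen]; exact hw'.1, by rw [hVlen]; exact (mem_W.1 m2).2⟩
  · rw [hVlen]; exact hlen
  · intro c hc
    rcases lt_or_eq_of_le (lt_succ.1 hc) with hc' | hc'
    · have := hline c hc'
      rw [m3 c hc'] at this
      exact this
    · rw [hc']
      have hGa := hline a ha
      rw [m3 a ha] at hGa
      have hmem : ∀ c < k + 1, mix k s x ++ wsing c ++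
          wsub (k + 1) (mixv k (s.drop (x.len + 1)) w) c ∈ W (k + 1) N := by
        intro c hc
        rw [← hlen]
        exact append_mem_W (append_mem_W m1 (wsing_mem_W.2 hc)) (wsub_mem_W m2 hc)
      refine hins _ (hmem a (lt_trans ha (lt_succ.2 le_rfl))) _ (hmem k (lt_succ.2 le_rfl)) ?_ hGa
      rw [wsub_append, wsub_append, wsub_append, wsub_append, wsub_wsing_self,
        wsub_wsing_of_ne _ ha.ne]
      congr 1
      apply Wd.ext' (by simp)
      intro i hi
      rw [len_wsub, len_wsub] at hi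
      rw [get_wsub (by rw [len_wsub]; exact hi), get_wsub hi,
        get_wsub (by rw [len_wsub]; exact hi), get_wsub hi]
      by_cases hv : (mixv k (s.drop (x.len + 1)) w).get i = k + 1
      · rw [if_pos hv, if_pos hv, if_neg ha.ne, if_pos rfl]
      · rw [if_neg hv, if_neg hv]

end Pool.Agent.OVW
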