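import Pool.Agent.OVW.StmtsB14

/-! # INS: the letters of `ins` and `Phi` -/

set_option autoImplicit false

namespace Pool.Agent.OVW

open Classical

set_option linter.unusedSectionVars false

namespace INS

variable {M : Type} [Arith M] [HasWorld M] {R : Set (M → M)} [IsWorld R]

theorem get_at {lam : M → M} (hl : Rec R lam) {y z : Wd M}
    (hm : ∀ j < z.len, ∀ i < j, lam i < lam j) {j : M} (hj : j < z.len) (hjy : lam j < y.len) :
    (ins lam y z).get (lam j) = z.get j := by
  unfold ins
  rw [get_wd (R := R) (by fun_prop) hjy, if_pos ⟨j, hj, rfl⟩]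
  have h1 := hchoose_mem (R := R) (S := rng z.len) (p := fun j' => lam j' = lam j) (by fun_prop)
    ⟨j, mem_rng.2 hj, rfl⟩
  have h2 := mem_rng.1 h1.1
  have h3 : lam (hchoose (rng z.len) (fun j' => lam j' = lam j)) = lam j := h1.2
  rcases lt_trichotomy (hchoose (rng z.len) (fun j' => lam j' = lam j)) j with h4 | h4 | h4
  · exact absurd h3 (hm j hj _ h4).ne
  · rw [h4]
  · exact absurd h3 (hm _ h2 _ h4).ne'

theorem get_off {lam : M → M} (hl : Rec R lam) {y z : Wd M} {i : M} (hi : i < y.len)
    (h : ∀ j < z.len, lam j ≠ i) : (ins lam y z).get i = y.get i := by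
  unfold ins
  rw [get_wd (R := R) (by fun_prop) hi, if_neg]
  rintro ⟨j, hj, hji⟩
  exact h j hj hji

end INS

theorem B_INS_thm : Stmt_B_INS := by
  intro M _ _ R _ lam y z hl hm
  refine ⟨len_wd _ _, fun j hj hjy => INS.get_at hl hm hj hjy, fun i hi h => INS.get_off hl hi h,
    fun hz hy => ⟨?_, ?_, ?_⟩⟩
  · unfold Phi
    rw [len_take]
    exact min_eq_left (by unfold ins; rw [len_wd]; exact hy)
  · intro j hj
    unfold Phi
    rw [get_take (hz j hj)]
    exact INS.get_at hl hm hj ((hz j hj).trans_le hy)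
  · intro i hi h
    unfold Phi
    rw [get_take hi]
    exact INS.get_off hl (hi.trans_le hy) h

end Pool.Agent.OVW
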