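import Pool.Agent.OVW.StmtsB14

/-!
# OVW, block B: `mix k s u` is uniform
-/

set_option autoImplicit false
set_option linter.unusedSectionVars false

namespace Pool.Agent.OVW

open Classical

namespace MXA

variable {M : Type} [Arith M] [HasWorld M] {R : Set (M → M)} [IsWorld R]

/-- The second component of the involution. -/
noncomputable def oth (k : M) (s u : Wd M) : Wd M :=
  wd u.len (fun i => if s.get i = k then u.get i else s.get i)

@[fun_prop] theorem Rec_oth {γ : Type} [Cod M γ] {k : γ → M} {s u : γ → Wd M} (h1 : Rec R k)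
    (h2 : Rec R s) (h3 : Rec R u) : Rec R (fun x => oth (k x) (s x) (u x)) := by
  unfold oth; fun_prop

theorem get_mix (R : Set (M → M)) [IsWorld R] (k : M) (s u : Wd M) {i : M} (h : i < u.len) :
    (mix k s u).get i = if s.get i = k then k else u.get i := by
  unfold mix
  exact get_wd (R := R) (by fun_prop) h

theorem get_oth (R : Set (M → M)) [IsWorld R] (k : M) (s u : Wd M) {i : M} (h : i < u.len) :
    (oth k s u).get i = if s.get i = k then u.get i else s.get i := by
  unfold oth
  exact get_wd (R := R) (by fun_prop) h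

theorem len_mix (k : M) (s u : Wd M) : (mix k s u).len = u.len := len_wd _ _

theorem len_oth (k : M) (s u : Wd M) : (oth k s u).len = u.len := len_wd _ _

theorem mem_mix (R : Set (M → M)) [IsWorld R] {k l : M} {s u : Wd M} (hu : u ∈ W k l) :
    mix k s u ∈ W (k + 1) l := by
  have hu' := mem_W.1 hu
  refine mem_W.2 ⟨(len_mix k s u).trans hu'.1, fun i hi => ?_⟩
  rw [get_mix R k s u (by rw [hu'.1]; exact hi)]
  split
  · exact lt_succ.2 le_rfl
  · exact lt_trans (hu'.2 i hi) (lt_succ.2 le_rfl)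

theorem mem_oth (R : Set (M → M)) [IsWorld R] {k l : M} {s u : Wd M} (hs : s ∈ W (k + 1) l)
    (hu : u ∈ W k l) : oth k s u ∈ W k l := by
  have hu' := mem_W.1 hu
  have hs' := mem_W.1 hs
  refine mem_W.2 ⟨(len_oth k s u).trans hu'.1, fun i hi => ?_⟩
  rw [get_oth R k s u (by rw [hu'.1]; exact hi)]
  split
  · exact hu'.2 i hi
  · rename_i h
    exact lt_of_le_of_ne (lt_succ.1 (hs'.2 i hi)) h

theorem mix_mix (R : Set (M → M)) [IsWorld R] {k l : M} {s u : Wd M} (hs : s ∈ W (k + 1) l)
    (hu : u ∈ W k l) : mix k (mix k s u) (oth k s u) = s := by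
  have hu' := mem_W.1 hu
  have hs' := mem_W.1 hs
  apply Wd.ext'
  · rw [len_mix, len_oth, hu'.1, hs'.1]
  · intro i hi
    rw [len_mix, len_oth] at hi
    rw [get_mix R k _ _ (by rw [len_oth]; exact hi), get_mix R k s u hi, get_oth R k s u hi]
    by_cases h : s.get i = k
    · rw [if_pos h, if_pos rfl, h]
    · rw [if_neg h, if_neg h, if_neg (hu'.2 i (hu'.1 ▸ hi)).ne]

theorem oth_oth (R : Set (M → M)) [IsWorld R] {k l : M} {s u : Wd M} (hs : s ∈ W (k + 1) l)
    (hu : u ∈ W k l) : oth k (mix k s u) (oth k s u) = u := by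
  have hu' := mem_W.1 hu
  have hs' := mem_W.1 hs
  apply Wd.ext'
  · rw [len_oth, len_oth]
  · intro i hi
    rw [len_oth, len_oth] at hi
    rw [get_oth R k _ _ (by rw [len_oth]; exact hi), get_mix R k s u hi, get_oth R k s u hi]
    by_cases h : s.get i = k
    · rw [if_pos h, if_pos rfl, if_pos h]
    · rw [if_neg h, if_neg h, if_neg (hu'.2 i (hu'.1 ▸ hi)).ne]

theorem rec1 (k : M) {F : Wd M → KK M} (hF : Rec R F) :
    Rec R (fun p : Wd M × Wd M => F (mix k p.1 p.2)) := by
  fun_prop

theorem rec2 {F : Wd M → KK M} (hF : Rec R F) : Rec R (fun p : Wd M × Wd M => F p.1) := by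
  fun_prop

/-- The involution. -/
noncomputable def inv (k : M) (p : Wd M × Wd M) : Wd M × Wd M := (mix k p.1 p.2, oth k p.1 p.2)

theorem Rec_inv (k : M) : Rec R (inv k) := by
  unfold inv
  fun_prop

theorem mem_inv (R : Set (M → M)) [IsWorld R] {k l : M} {p : Wd M × Wd M}
    (hp : p ∈ (W (k + 1) l).prod (W k l)) : inv k p ∈ (W (k + 1) l).prod (W k l) := by
  have hp' := mem_prod.1 hp
  exact mem_prod.2 ⟨mem_mix R hp'.2, mem_oth R hp'.1 hp'.2⟩

theorem inv_inv (R : Set (M → M)) [IsWorld R] {k l : M} {p : Wd M × Wd M}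
    (hp : p ∈ (W (k + 1) l).prod (W k l)) : inv k (inv k p) = p := by
  have hp' := mem_prod.1 hp
  exact Prod.ext (mix_mix R hp'.1 hp'.2) (oth_oth R hp'.1 hp'.2)

theorem step1 {k l : M} {F : Wd M → KK M} (hF : Rec R F) :
    havg ((W (k + 1) l).prod (W k l)) (fun p => F (mix k p.1 p.2)) =
      havg (W (k + 1) l) (fun s => havg (W k l) (fun u => F (mix k s u))) :=
  havg_prod (rec1 k hF)

theorem step2 {k l : M} {F : Wd M → KK M} (hF : Rec R F) :
    havg ((W (k + 1) l).prod (W k l)) (fun p => F (mix k p.1 p.2)) =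
      havg ((W (k + 1) l).prod (W k l)) (fun p => F p.1) :=
  havg_bij' (inv k) (inv k) (Rec_inv k) (rec1 k hF) (rec2 hF) (fun _ hp => mem_inv R hp)
    (fun _ hp => mem_inv R hp) (fun _ hp => inv_inv R hp) (fun _ hp => inv_inv R hp)
    (fun _ _ => rfl)

theorem step3 {k l : M} {F : Wd M → KK M} (hF : Rec R F) :
    havg ((W (k + 1) l).prod (W k l)) (fun p => F p.1) =
      havg (W (k + 1) l) (fun s => havg (W k l) (fun _ => F s)) :=
  havg_prod (rec2 hF)

end MXA

theorem B_MXA_thm : Stmt_B_MXA := by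
  intro M _ _ R _ k l F hF hk
  rw [← MXA.step1 (R := R) hF, MXA.step2 (R := R) hF, MXA.step3 (R := R) hF]
  exact havg_congr fun s _ => havg_const _ (W_nonempty hk l)

end Pool.Agent.OVW
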