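import Pool.Agent.OVW.StmtsB14

/-!
# OVW, block B, MXM: the words `mix`
-/

set_option autoImplicit false
set_option linter.unusedSectionVars false

namespace Pool.Agent.OVW

open Classical

namespace MXM

variable {M : Type} [Arith M] [HasWorld M] {R : Set (M → M)} [IsWorld R]

theorem get_mix (R : Set (M → M)) [IsWorld R] (k : M) (s u : Wd M) {i : M} (h : i < u.len) :
    (mix k s u).get i = if s.get i = k then k else u.get i := by
  unfold mix
  exact get_wd (R := R) (by fun_prop) h

theorem get_mixv (R : Set (M → M)) [IsWorld R] (k : M) (s w : Wd M) {i : M} (h : i < w.len) :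
    (mixv k s w).get i = if s.get i = k then k else if w.get i = k then k + 1 else w.get i := by
  unfold mixv
  exact get_wd (R := R) (by fun_prop) h

theorem len_mix (k : M) (s u : Wd M) : (mix k s u).len = u.len := len_wd _ _

theorem len_mixv (k : M) (s u : Wd M) : (mixv k s u).len = u.len := len_wd _ _

theorem cat_left {x v : Wd M} {c i : M} (h : i < x.len) : (x ++ wsing c ++ v).get i = x.get i := by
  rw [get_append_left, get_append_left h]
  rw [len_append, len_wsing]
  exact lt_succ.2 h.le

theorem cat_mid (x v : Wd M) (c : M) : (x ++ wsing c ++ v).get x.len = c := by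
  rw [get_append_left]
  · have h := get_append_right (u := x) (v := wsing c) 0
    rw [add_zero] at h
    rw [h, get_wsing]
  · rw [len_append, len_wsing]
    exact lt_succ.2 le_rfl

theorem cat_right (x v : Wd M) (c j : M) : (x ++ wsing c ++ v).get (x.len + 1 + j) = v.get j := by
  have h := get_append_right (u := x ++ wsing c) (v := v) j
  rw [len_append, len_wsing] at h
  exact h

theorem mix_mem (R : Set (M → M)) [IsWorld R] (k : M) (s u : Wd M) (hu : u ∈ W k u.len) :
    mix k s u ∈ W (k + 1) u.len := by
  rw [mem_W] at hu ⊢
  refine ⟨len_mix k s u, fun i hi => ?_⟩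
  rw [get_mix R k s u hi]
  split_ifs
  · exact lt_succ.2 le_rfl
  · exact lt_succ.2 (hu.2 i hi).le

end MXM

open MXM in
theorem B_MXM_thm : Stmt_B_MXM := by
  intro M _ _ R _ k N s hs
  refine ⟨fun u hu huN => ⟨mix_mem R k s u hu, fun i hi => ?_, fun l hl => ?_⟩, ?_⟩
  · rw [get_mix R k s u hi]
    have h1 := (mem_W.1 hu).2 i hi
    split_ifs with h
    · exact ⟨fun _ => h, fun _ => rfl⟩
    · exact ⟨fun e => absurd e h1.ne, fun e => absurd e h⟩
  · have hl' : (u.take l).len = l := by rw [len_take, min_eq_left hl]
    apply Wd.ext'
    · rw [len_take, len_mix, len_mix, len_take]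
    · intro i hi
      rw [len_take, len_mix, min_eq_left hl] at hi
      rw [get_take hi, get_mix R k s u (lt_of_lt_of_le hi hl),
        get_mix R k s (u.take l) (by rw [hl']; exact hi), get_take hi]
  · intro x w hx hw hN hsx
    refine ⟨mix_mem R k s x hx, ?_, fun c hc => ?_⟩
    · rw [mem_W] at hw ⊢
      refine ⟨len_mixv k _ w, fun i hi => ?_⟩
      rw [get_mixv R k _ w hi]
      have h1 := hw.2 i hi
      split_ifs
      · exact lt_succ.2 (lt_succ.2 le_rfl).le
      · exact lt_succ.2 le_rfl
      · exact lt_succ.2 h1.le
    · have hlen : (x ++ wsing c ++ wsub k w c).len = x.len + 1 + w.len := by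
        rw [len_append, len_append, len_wsing, len_wsub]
      apply Wd.ext'
      · rw [len_mix, hlen, len_append, len_append, len_wsing, len_mix, len_wsub, len_mixv]
      · intro i hi
        rw [len_mix, hlen] at hi
        rw [get_mix R k s _ (by rw [hlen]; exact hi)]
        rcases lt_trichotomy i x.len with h | h | h
        · rw [cat_left h, cat_left (by rw [len_mix]; exact h), get_mix R k s x h]
        · subst h
          rw [cat_mid, if_neg hsx]
          have e := cat_mid (mix k s x) (wsub (k + 1) (mixv k (s.drop (x.len + 1)) w) c) c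
          rw [len_mix] at e
          exact e.symm
        · obtain ⟨j, rfl⟩ := le_iff_exists_add.1 (succ_le.2 h)
          have hj : j < w.len := lt_of_add_lt_add_left hi
          rw [cat_right]
          have e := cat_right (mix k s x) (wsub (k + 1) (mixv k (s.drop (x.len + 1)) w) c) c j
          rw [len_mix] at e
          rw [e, get_wsub hj, get_wsub (by rw [len_mixv]; exact hj), get_mixv R k _ w hj, get_drop]
          have h1 := (mem_W.1 hw).2 j hj
          by_cases h2 : s.get (x.len + 1 + j) = k
          · rw [if_pos h2, if_pos h2, if_neg (lt_succ.2 le_rfl).ne]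
          · rw [if_neg h2, if_neg h2]
            by_cases h3 : w.get j = k
            · rw [if_pos h3, if_pos h3, if_pos rfl]
            · rw [if_neg h3, if_neg h3, if_neg h1.ne]

end Pool.Agent.OVW
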