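import Pool.Agent.OVW.StmtsB14

/-!
# Block B, NOB: exchange of the letter number `l`
-/

set_option autoImplicit false

namespace Pool.Agent.OVW

open Classical

set_option linter.unusedSectionVars false

namespace NOB

variable {M : Type} [Arith M] [HasWorld M] {R : Set (M → M)} [IsWorld R]

theorem get_set_self {t : Wd M} {l : M} (h : l < t.len) (c : M) : (t.set l c).get l = c := by
  rw [get_set h, if_pos rfl]

theorem take_set (t : Wd M) (l c : M) (h : l < t.len) : (t.set l c).take l = t.take l := by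
  apply Wd.ext'
  · rw [len_take, len_take, len_set]
  · intro i hi
    rw [len_take, len_set, lt_min_iff] at hi
    rw [get_take hi.1, get_take hi.1, get_set h, if_neg hi.1.ne]

theorem wsub_set {t : Wd M} {l k a : M} (h : l < t.len) (ha : a ≠ k) :
    wsub k (t.set l k) a = wsub k (t.set l a) a := by
  apply Wd.ext'
  · rw [len_wsub, len_wsub, len_set, len_set]
  · intro i hi
    rw [len_wsub] at hi
    have hi' : i < (t.set l a).len := by
      rw [len_set] at hi ⊢
      exact hi
    rw [get_wsub hi, get_wsub hi', get_set h, get_set h]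
    by_cases e : i = l
    · rw [if_pos e, if_pos e, if_pos rfl, if_neg ha]
    · rw [if_neg e, if_neg e]

theorem hpr_set_le {k N l : M} (hk : 0 < k) (hl : l < N) {P1 P2 : Wd M → Prop} (h1 : Rec R P1)
    (h2 : Rec R P2)
    (h : ∀ t ∈ W k N, hsum (rng k) (fun c => if P1 (t.set l c) then (1 : KK M) else 0) ≤
      hsum (rng k) (fun c => if P2 (t.set l c) then (1 : KK M) else 0)) :
    hpr (W k N) P1 ≤ hpr (W k N) P2 := by
  unfold hpr
  rw [← havg_W_set (R := R) hk hl (f := fun t => if P1 t then 1 else 0) (by fun_prop),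
    ← havg_W_set (R := R) hk hl (f := fun t => if P2 t then 1 else 0) (by fun_prop)]
  refine havg_le_havg (R := R) (by fun_prop) (by fun_prop) fun t ht => ?_
  unfold havg
  exact div_le_div_of_nonneg_right (h t ht) (cK_nonneg _)

end NOB

theorem B_NOB_thm : Stmt_B_NOB := by
  intro M _ _ R _ k a N l β Q G hQ hG ha hl hins hβ
  have hk : (0 : M) < k + 1 := lt_succ.2 (zero_le' k)
  have h1 : hpr (W (k + 1) N) (fun t => Q (t.take l) ∧ G t) =
      hpr (W (k + 1) N) (fun t => t.get l = k ∧ Q (t.take l) ∧ G t) +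
      hpr (W (k + 1) N) (fun t => t.get l ≠ k ∧ Q (t.take l) ∧ G t) := by
    unfold hpr
    rw [← havg_add (R := R) (by fun_prop) (by fun_prop)]
    refine havg_congr fun t _ => ?_
    by_cases h2 : t.get l = k
    · by_cases h3 : Q (t.take l) ∧ G t
      · rw [if_pos h3, if_pos ⟨h2, h3⟩, if_neg (fun h => h.1 h2), add_zero]
      · rw [if_neg h3, if_neg (fun h => h3 h.2), if_neg (fun h => h3 h.2), add_zero]
    · by_cases h3 : Q (t.take l) ∧ G t
      · rw [if_pos h3, if_neg (fun h => h2 h.1), if_pos ⟨h2, h3⟩, zero_add]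
      · rw [if_neg h3, if_neg (fun h => h3 h.2), if_neg (fun h => h3 h.2), add_zero]
  have h2 : hpr (W (k + 1) N) (fun t => t.get l = k ∧ Q (t.take l) ∧ G t) ≤
      hpr (W (k + 1) N) (fun t => t.get l ≠ k ∧ Q (t.take l) ∧ G t) := by
    obtain ⟨P1, hP1⟩ : ∃ P1 : Wd M → Prop, P1 = fun t => t.get l = k ∧ Q (t.take l) ∧ G t :=
      ⟨_, rfl⟩
    obtain ⟨P2, hP2⟩ : ∃ P2 : Wd M → Prop, P2 = fun t => t.get l ≠ k ∧ Q (t.take l) ∧ G t :=
      ⟨_, rfl⟩
    have r1 : Rec R P1 := by
      rw [hP1]
      fun_prop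
    have r2 : Rec R P2 := by
      rw [hP2]
      fun_prop
    rw [← hP1, ← hP2]
    refine NOB.hpr_set_le (R := R) hk hl r1 r2 fun t ht => ?_
    have hlt : l < t.len := by
      rw [(mem_W.1 ht).1]
      exact hl
    have q1 : ∀ c, P1 (t.set l c) ↔ (c = k ∧ Q (t.take l) ∧ G (t.set l c)) := by
      intro c
      rw [hP1]
      beta_reduce
      rw [NOB.get_set_self hlt, NOB.take_set t l c hlt]
    have q2 : ∀ c, P2 (t.set l c) ↔ (c ≠ k ∧ Q (t.take l) ∧ G (t.set l c)) := by
      intro c
      rw [hP2]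
      beta_reduce
      rw [NOB.get_set_self hlt, NOB.take_set t l c hlt]
    have e1 : hsum (rng (k + 1)) (fun c => if P1 (t.set l c) then (1 : KK M) else 0) =
        if Q (t.take l) ∧ G (t.set l k) then 1 else 0 := by
      rw [← hsum_ite_eq (S := rng (k + 1)) (c := k) (mem_rng.2 (lt_succ.2 le_rfl))
        (if Q (t.take l) ∧ G (t.set l k) then 1 else 0)]
      refine hsum_congr fun c _ => ?_
      by_cases hc : c = k
      · subst hc
        rw [if_pos rfl]
        by_cases h3 : Q (t.take l) ∧ G (t.set l c)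
        · rw [if_pos h3, if_pos ((q1 c).2 ⟨rfl, h3⟩)]
        · rw [if_neg h3, if_neg (fun h => h3 ((q1 c).1 h).2)]
      · rw [if_neg hc, if_neg (fun h => hc ((q1 c).1 h).1)]
    have e2 : ∀ c, (0 : KK M) ≤ if P2 (t.set l c) then (1 : KK M) else 0 := by
      intro c
      split_ifs
      · exact zero_le_one
      · exact le_rfl
    rw [e1]
    refine le_trans ?_ (single_le_hsum (R := R) (S := rng (k + 1)) (a := a)
      (f := fun c => if P2 (t.set l c) then (1 : KK M) else 0) (by fun_prop) (fun c _ => e2 c)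
      (mem_rng.2 (lt_succ.2 ha.le)))
    by_cases h3 : Q (t.take l) ∧ G (t.set l k)
    · have hmk : t.set l k ∈ W (k + 1) N := set_mem_W ht (lt_succ.2 le_rfl)
      have hma : t.set l a ∈ W (k + 1) N := set_mem_W ht (lt_succ.2 ha.le)
      have h4 : G (t.set l a) := hins _ hmk _ hma (NOB.wsub_set hlt ha.ne) h3.2
      rw [if_pos h3, if_pos ((q2 a).2 ⟨ha.ne, h3.1, h4⟩)]
    · rw [if_neg h3]
      exact e2 a
  rw [h1] at hβ
  linarith

end Pool.Agent.OVW
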