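import Pool.Agent.OVW.StmtsB14

/-!
# Block B, module PHA: for uniform `y` and `z` the word `Phi lam y z` is uniform
-/

namespace Pool.Agent.OVW

open Classical

set_option linter.unusedSectionVars false

variable {M : Type} [Arith M] [HasWorld M] {R : Set (M → M)} [IsWorld R]

namespace PHA

/-- The involution of the pairs of words. -/
noncomputable def Th (lam : M → M) (r : M) (p : Wd M × Wd M) : Wd M × Wd M :=
  (ins lam p.1 p.2, wd r (fun j => p.1.get (lam j)))

theorem rec_Th {lam : M → M} (r : M) (hlam : Rec R lam) : Rec R (Th lam r) := by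
  unfold Th
  fun_prop

theorem Th_mem (h1 : Stmt_B_INS) {lam : M → M} {κ N r : M} (hlam : Rec R lam)
    (hlt : ∀ j < r, lam j < N) (hmono : ∀ j < r, ∀ i < j, lam i < lam j) {p : Wd M × Wd M}
    (hp : p ∈ (W κ N).prod (W κ r)) : Th lam r p ∈ (W κ N).prod (W κ r) := by
  rw [mem_prod, mem_W, mem_W] at hp
  obtain ⟨⟨hy1, hy2⟩, hz1, hz2⟩ := hp
  obtain ⟨i1, i2, i3, -⟩ := h1 M R lam p.1 p.2 hlam (by rw [hz1]; exact hmono)
  rw [hz1] at i2 i3
  rw [hy1] at i1 i2 i3
  rw [mem_prod, mem_W, mem_W]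
  refine ⟨⟨i1, ?_⟩, len_wd _ _, ?_⟩
  · intro i hi
    show (ins lam p.1 p.2).get i < κ
    by_cases h : ∃ j < r, lam j = i
    · obtain ⟨j, hj, rfl⟩ := h
      rw [i2 j hj hi]
      exact hz2 j hj
    · push Not at h
      rw [i3 i hi h]
      exact hy2 i hi
  · intro j hj
    show (wd r (fun j => p.1.get (lam j))).get j < κ
    rw [get_wd (R := R) (by fun_prop) hj]
    exact hy2 _ (hlt j hj)

theorem Th_Th (h1 : Stmt_B_INS) {lam : M → M} {κ N r : M} (hlam : Rec R lam)
    (hlt : ∀ j < r, lam j < N) (hmono : ∀ j < r, ∀ i < j, lam i < lam j) {p : Wd M × Wd M}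
    (hp : p ∈ (W κ N).prod (W κ r)) : Th lam r (Th lam r p) = p := by
  have hq := Th_mem h1 hlam hlt hmono hp
  rw [mem_prod, mem_W, mem_W] at hp hq
  obtain ⟨⟨hy1, hy2⟩, hz1, hz2⟩ := hp
  obtain ⟨⟨hy1', hy2'⟩, hz1', hz2'⟩ := hq
  obtain ⟨i1, i2, i3, -⟩ := h1 M R lam p.1 p.2 hlam (by rw [hz1]; exact hmono)
  obtain ⟨j1, j2, j3, -⟩ := h1 M R lam (Th lam r p).1 (Th lam r p).2 hlam
    (by rw [hz1']; exact hmono)
  rw [hz1] at i2 i3
  rw [hz1'] at j2 j3
  rw [hy1] at i1 i2 i3
  rw [hy1'] at j1 j2 j3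
  apply Prod.ext
  · apply Wd.ext'
    · exact j1.trans hy1.symm
    · intro i hi
      have hi' : i < N := by
        have : (Th lam r (Th lam r p)).1.len = N := j1
        rwa [this] at hi
      show (ins lam (Th lam r p).1 (Th lam r p).2).get i = p.1.get i
      by_cases h : ∃ j < r, lam j = i
      · obtain ⟨j, hj, rfl⟩ := h
        rw [j2 j hj hi']
        show (wd r (fun j => p.1.get (lam j))).get j = _
        rw [get_wd (R := R) (by fun_prop) hj]
      · push Not at h
        rw [j3 i hi' h]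
        exact i3 i hi' h
  · apply Wd.ext'
    · exact (len_wd _ _).trans hz1.symm
    · intro j hj
      have hj' : j < r := by
        have : (Th lam r (Th lam r p)).2.len = r := len_wd _ _
        rwa [this] at hj
      show (wd r (fun j => (Th lam r p).1.get (lam j))).get j = p.2.get j
      rw [get_wd (R := R) (f := fun j => (Th lam r p).1.get (lam j)) (by fun_prop) hj']
      exact i2 j hj' (hlt j hj')

end PHA

open PHA in
theorem B_PHA_thm (h1 : Stmt_B_INS) : Stmt_B_PHA := by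
  intro M _ _ R _ lam κ N r φ hlam hφ hκ hr hmono
  have hmono' : ∀ j < r, ∀ i < j, lam i < lam j := fun j hj => hmono j hj.le
  have hlt : ∀ j < r, lam j < N := fun j hj => lt_of_lt_of_le (hmono r le_rfl j hj) hr
  have e1 : havg (W κ N) (fun y => havg (W κ r) (fun z => φ (Phi lam y z))) =
      havg ((W κ N).prod (W κ r)) (fun p => φ (Phi lam p.1 p.2)) :=
    (havg_prod (R := R) (f := fun p : Wd M × Wd M => φ (Phi lam p.1 p.2)) (by fun_prop)).symm
  have e2 : havg ((W κ N).prod (W κ r)) (fun p => φ (Phi lam p.1 p.2)) =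
      havg ((W κ N).prod (W κ r)) (fun p => φ (p.1.take (lam r))) := by
    have r1 : Rec R (fun p : Wd M × Wd M => φ (Phi lam p.1 p.2)) := by fun_prop
    have r2 : Rec R (fun p : Wd M × Wd M => φ (p.1.take (lam r))) := by fun_prop
    have m1 : ∀ p ∈ (W κ N).prod (W κ r), Th lam r p ∈ (W κ N).prod (W κ r) :=
      fun p hp => Th_mem h1 hlam hlt hmono' hp
    have m2 : ∀ p ∈ (W κ N).prod (W κ r), Th lam r (Th lam r p) = p :=
      fun p hp => Th_Th h1 hlam hlt hmono' hp
    refine havg_bij' (R := R) (S := (W κ N).prod (W κ r)) (T := (W κ N).prod (W κ r))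
      (f := fun p => φ (Phi lam p.1 p.2)) (g := fun p => φ (p.1.take (lam r)))
      (Th lam r) (Th lam r) (rec_Th r hlam) r1 r2 m1 m1 m2 m2 ?_
    intro p hp
    rw [mem_prod, mem_W, mem_W] at hp
    show φ ((ins lam p.1 p.2).take (lam p.2.len)) = φ ((ins lam p.1 p.2).take (lam r))
    rw [hp.2.1]
  have e3 : havg ((W κ N).prod (W κ r)) (fun p => φ (p.1.take (lam r))) =
      havg (W κ N) (fun y => φ (y.take (lam r))) := by
    rw [havg_prod (R := R) (f := fun p : Wd M × Wd M => φ (p.1.take (lam r))) (by fun_prop)]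
    refine havg_congr fun y _ => ?_
    show havg (W κ r) (fun _ => φ (y.take (lam r))) = φ (y.take (lam r))
    exact havg_const (φ (y.take (lam r))) (W_nonempty hκ r)
  rw [e1, e2, e3]
  exact havg_W_take (R := R) hκ hr hφ

end Pool.Agent.OVW
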