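import Pool.Agent.OVW.StmtsB14

/-!
# OVW, block B, PHC: one step of `Phi`
-/

set_option autoImplicit false
set_option linter.unusedSectionVars false

namespace Pool.Agent.OVW

open Classical

theorem B_PHC_thm (h1 : Stmt_B_INS) : Stmt_B_PHC := by
  intro M _ _ R _ lam y x u hlam hle hmono
  have hlam' : Rec R (fun j => lam (x.len + j)) := by fun_prop
  have hlen : (x ++ u).len = x.len + u.len := len_append x u
  have hxle : x.len ≤ x.len + u.len := le_self_add
  -- the three maps
  obtain ⟨-, -, -, a4⟩ := h1 M R lam y (x ++ u) hlam (fun j hj i hi =>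
    hmono j (hlen ▸ hj.le) i hi)
  rw [hlen] at a4
  obtain ⟨a1, a2, a3⟩ := a4 (fun i hi => hmono _ le_rfl i hi) hle
  obtain ⟨b1, b2, b3, -⟩ := h1 M R lam y x hlam (fun j hj i hi =>
    hmono j (hj.le.trans hxle) i hi)
  obtain ⟨-, -, -, c4⟩ := h1 M R (fun j => lam (x.len + j)) (ins lam y x) u hlam'
    (fun j hj i hi => hmono _ (add_le_add_right hj.le _) _ (add_lt_add_right hi _))
  obtain ⟨c1, c2, c3⟩ := c4 (fun i hi => hmono _ le_rfl _ (add_lt_add_right hi _))
    (by rw [b1]; exact hle)
  refine Wd.ext' (a1.trans c1.symm) fun i hi => ?_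
  rw [a1] at hi
  have hiy : i < y.len := hi.trans_le hle
  by_cases k1 : ∃ j < x.len, lam j = i
  · obtain ⟨j, hj, rfl⟩ := k1
    have hj' : j < x.len + u.len := hj.trans_le hxle
    rw [a2 j hj', get_append_left hj, c3 (lam j) hi ?_, b2 j hj hiy]
    intro j' hj' he
    have := hmono (x.len + j') (add_le_add_right hj'.le _) j (hj.trans_le le_self_add)
    exact this.ne' he
  · push Not at k1
    by_cases k2 : ∃ j < u.len, lam (x.len + j) = i
    · obtain ⟨j, hj, rfl⟩ := k2
      rw [a2 _ (add_lt_add_right hj _), get_append_right, c2 j hj]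
    · push Not at k2
      rw [c3 i hi k2, b3 i hiy k1, a3 i hi]
      intro j hj
      rcases lt_or_ge j x.len with h | h
      · exact k1 j h
      · obtain ⟨j', rfl⟩ := le_iff_exists_add.1 h
        exact k2 j' (lt_of_add_lt_add_left hj)

end Pool.Agent.OVW
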