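import Pool.Agent.OVW.StmtsB14

/-!
# Block B, module PHL: the maps `Phi` map lines to lines, with the levels
-/

namespace Pool.Agent.OVW

open Classical

set_option linter.unusedSectionVars false

/-- (PHL) lines are mapped to lines, with the levels. -/
theorem B_PHL_thm (h2 : Stmt_B_PHW) (h3 : Stmt_B_PHM) : Stmt_B_PHL := by
  intro M _ _ R _ lam κ m N y hlam hy hmN hinc x hx w hw hxw
  have hyW := (mem_W.1 hy)
  have hxl := mem_Wlt.1 hx
  have hwl := mem_Wlt.1 hw
  have hxW : x ∈ W κ x.len := mem_W.2 ⟨rfl, hxl.2⟩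
  have hwW : w ∈ W (κ + 1) w.len := mem_W.2 ⟨rfl, hwl.2⟩
  have hκ : κ < κ + 1 := lt_succ.2 le_rfl
  have hκ' : κ ≤ κ + 1 := hκ.le
  -- the level of the end
  have hmono : ∀ j ≤ m, lam j ≤ N := by
    intro j hj
    rcases hj.eq_or_lt with rfl | hj
    · exact hmN
    · exact (hinc m le_rfl j hj).le.trans hmN
  have hxm : x.len ≤ m := lt_succ.1 hxl.1
  have hux : (wsing κ ++ w : Wd M).len = 1 + w.len := by rw [len_append, len_wsing]
  have hZl : (x ++ (wsing κ ++ w)).len = x.len + 1 + w.len := by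
    rw [len_append, hux, add_assoc]
  have hle : x.len + (wsing κ ++ w : Wd M).len = x.len + 1 + w.len := by
    rw [hux, add_assoc]
  have hZW : x ++ (wsing κ ++ w) ∈ W (κ + 1) (x ++ (wsing κ ++ w)).len := by
    rw [len_append, hux]
    exact append_mem_W (W_mono hκ' _ hxW) (append_mem_W (wsing_mem_W.2 hκ) hwW)
  have hyW' : y ∈ W (κ + 1) N := W_mono hκ' _ hy
  have hincx : ∀ j ≤ x.len, ∀ i < j, lam i < lam j := fun j hj => hinc j (hj.trans hxm)
  have hinc' : ∀ j ≤ x.len + 1 + w.len, ∀ i < j, lam i < lam j :=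
    fun j hj => hinc j (hj.trans hxw)
  have hxP : Phi lam y x ∈ W κ (lam x.len) :=
    (h3 M R lam κ N y hlam hy).1 x hxW (hmono _ hxm) hincx
  have hXP : Phi lam y (x ++ (wsing κ ++ w)) ∈ W (κ + 1) (lam (x.len + 1 + w.len)) := by
    have := (h3 M R lam (κ + 1) N y hlam hyW').1 (x ++ (wsing κ ++ w)) hZW
      (by rw [hZl]; exact hmono _ hxw) (by rw [hZl]; exact hinc')
    rwa [hZl] at this
  obtain ⟨ht, hg⟩ := (h3 M R lam (κ + 1) N y hlam hyW').2 x (wsing κ ++ w)
    (by rw [hle]; exact hmono _ hxw) (by rw [hle]; exact hinc')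
  have hg' : (Phi lam y (x ++ (wsing κ ++ w))).get (lam x.len) = κ := by
    rw [hg (by rw [hux]; exact lt_of_lt_of_le one_pos le_self_add),
      get_append_left (by rw [len_wsing]; exact one_pos), get_wsing]
  have hXl : (Phi lam y (x ++ (wsing κ ++ w))).len = lam (x.len + 1 + w.len) := (mem_W.1 hXP).1
  have hlt : lam x.len < lam (x.len + 1 + w.len) :=
    hinc' _ le_rfl _ (lt_of_lt_of_le (lt_succ.2 le_rfl) le_self_add)
  set X := Phi lam y (x ++ (wsing κ ++ w)) with hX
  have hdec : X = Phi lam y x ++ wsing κ ++ X.drop (lam x.len + 1) := by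
    conv_lhs => rw [← take_append_drop (lam x.len + 1) X]
    rw [take_succ (by rw [hXl]; exact hlt), ht, hg']
  refine ⟨hxP, X.drop (lam x.len + 1), ?_, ?_, ?_⟩
  · have h5 := drop_mem_W (n := lam x.len + 1) hXP
    refine mem_Wlt_iff.2 ⟨_, ?_, h5⟩
    exact lt_succ.2 (tsub_le_self.trans (hmono _ hxw))
  · rw [len_drop, hXl]
    exact add_tsub_cancel_of_le (succ_le.2 hlt)
  · intro c hc
    have h6 := (h2 M R lam y (x ++ (wsing κ ++ w)) hlam (by
      rw [hZl, hyW.1]; exact hmono _ hxw) (by rw [hZl]; exact hinc')).1 κ c (by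
        intro i hi
        rw [hyW.1] at hi
        exact (hyW.2 i hi).ne)
    rw [wsub_append, wsub_append, wsub_wsing_self,
      wsub_of_no_var c (fun i hi => (hxl.2 i hi).ne)] at h6
    rw [append_assoc x (wsing c) (wsub κ w c), ← h6, ← hX]
    conv_lhs => rw [hdec]
    rw [wsub_append, wsub_append, wsub_wsing_self,
      wsub_of_no_var c (fun i hi => ?_)]
    rw [(mem_W.1 hxP).1] at hi
    exact ((mem_W.1 hxP).2 i hi).ne

end Pool.Agent.OVW
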