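import Pool.Agent.OVW.StmtsB14

namespace Pool.Agent.OVW

open Classical

set_option linter.unusedSectionVars false

namespace PHM

variable {M : Type} [Arith M]

theorem mono_le {lam : M → M} {m : M} (h : ∀ j ≤ m, ∀ i < j, lam i < lam j) {i j : M} (hj : j ≤ m)
    (hij : i ≤ j) : lam i ≤ lam j := by
  rcases hij.lt_or_eq with hlt | rfl
  · exact (h j hj i hlt).le
  · exact le_rfl

end PHM

theorem B_PHM_thm (h1 : Stmt_B_INS) : Stmt_B_PHM := by
  intro M _ _ R _ lam κ N y hlam hy
  obtain ⟨hyl, hyg⟩ := mem_W.1 hy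
  have key : ∀ z : Wd M, lam z.len ≤ N → (∀ j ≤ z.len, ∀ i < j, lam i < lam j) →
      (Phi lam y z).len = lam z.len ∧ (∀ j < z.len, (Phi lam y z).get (lam j) = z.get j) ∧
      ∀ i < lam z.len, (∀ j < z.len, lam j ≠ i) → (Phi lam y z).get i = y.get i := by
    intro z hz hm
    exact (h1 M R lam y z hlam (fun j hj => hm j hj.le)).2.2.2
      (fun i hi => hm z.len le_rfl i hi) (hyl ▸ hz)
  refine ⟨?_, ?_⟩
  · intro z hz hzN hm
    obtain ⟨k1, k2, k3⟩ := key z hzN hm
    rw [mem_W]
    refine ⟨k1, fun i hi => ?_⟩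
    by_cases hex : ∃ j < z.len, lam j = i
    · obtain ⟨j, hj, rfl⟩ := hex
      rw [k2 j hj]
      exact (mem_W.1 hz).2 j hj
    · rw [k3 i hi (fun j hj he => hex ⟨j, hj, he⟩)]
      exact hyg i (lt_of_lt_of_le hi hzN)
  · intro x u hN hm
    have hlen : (x ++ u).len = x.len + u.len := len_append x u
    have hxu : x.len ≤ x.len + u.len := le_self_add
    have hle : lam x.len ≤ lam (x.len + u.len) := PHM.mono_le hm le_rfl hxu
    obtain ⟨k1, k2, k3⟩ := key (x ++ u) (by rw [hlen]; exact hN) (by rw [hlen]; exact hm)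
    obtain ⟨l1, l2, l3⟩ := key x (hle.trans hN) (fun j hj => hm j (hj.trans hxu))
    refine ⟨?_, ?_⟩
    · apply Wd.ext'
      · rw [len_take, k1, l1, hlen, min_eq_left hle]
      · intro i hi
        rw [len_take, k1, hlen, min_eq_left hle] at hi
        rw [get_take hi]
        by_cases hex : ∃ j < x.len, lam j = i
        · obtain ⟨j, hj, rfl⟩ := hex
          rw [k2 j (by rw [hlen]; exact lt_of_lt_of_le hj hxu), l2 j hj, get_append_left hj]
        · rw [l3 i hi (fun j hj he => hex ⟨j, hj, he⟩), k3 i]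
          · rw [hlen]
            exact lt_of_lt_of_le hi hle
          · intro j hj he
            rw [hlen] at hj
            by_cases hjx : j < x.len
            · exact hex ⟨j, hjx, he⟩
            · have := PHM.mono_le hm hj.le (not_lt.1 hjx)
              rw [he] at this
              exact absurd hi (not_lt.2 this)
    · intro hu
      rw [k2 x.len (by rw [hlen]; exact lt_add_of_pos_right _ hu), get_append_right' le_rfl]
      congr 1
      exact sub_eq_zero' le_rfl

end Pool.Agent.OVW
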