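import Pool.Agent.OVW.StmtsB14

/-!
# OVW, block B, PHT: the maps `Phi` are trees
-/

set_option autoImplicit false
set_option linter.unusedSectionVars false

namespace Pool.Agent.OVW

open Classical

theorem B_PHT_thm (h2 : Stmt_B_PHW) (h3 : Stmt_B_PHM) (h4 : Stmt_B_PHL) : Stmt_B_PHT := by
  intro M _ _ R _ lam k m n N y hlam hy hmn hnN hinc
  have hmN : lam m ≤ N := lt_succ.1 (lt_of_lt_of_le hmn hnN)
  have hy' := mem_W.1 hy
  have hle : ∀ j, j ≤ m → lam j ≤ lam m := by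
    intro j hj
    rcases lt_or_eq_of_le hj with h | h
    · exact (hinc m le_rfl j h).le
    · rw [h]
  have hmono : ∀ z : Wd M, z.len < m + 1 → ∀ j ≤ z.len, ∀ i < j, lam i < lam j :=
    fun z hz j hj => hinc j (hj.trans (lt_succ.1 hz))
  have hyl : ∀ z : Wd M, z.len < m + 1 → lam z.len ≤ y.len := by
    intro z hz
    rw [hy'.1]
    exact (hle _ (lt_succ.1 hz)).trans hmN
  have hword : ∀ κ : M, y ∈ W κ N → ∀ z ∈ Wlt κ (m + 1), Phi lam y z ∈ Wlt κ n := by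
    intro κ hyκ z hz
    have hz' := mem_Wlt.1 hz
    have h := (h3 M R lam κ N y hlam hyκ).1 z (mem_W.2 ⟨rfl, hz'.2⟩)
      ((hle _ (lt_succ.1 hz'.1)).trans hmN) (hmono z hz'.1)
    exact mem_Wlt_iff.2 ⟨lam z.len, lt_of_le_of_lt (hle _ (lt_succ.1 hz'.1)) hmn, h⟩
  refine ⟨hword (k + 1) hy, ?_, ?_, ?_⟩
  · intro w hw
    have hw' := mem_Wlt.1 hw
    refine ⟨Phi lam y w, hword (k + 1 + 1) (W_mono (lt_succ.2 le_rfl).le _ hy) w hw, ?_⟩
    intro c hc
    exact ((h2 M R lam y w hlam (hyl w hw'.1) (hmono w hw'.1)).1 (k + 1) c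
      (fun i hi => (hy'.2 i (by rw [← hy'.1]; exact hi)).ne)).symm
  · intro x hx w hw hlen
    have hle2 : x.len + 1 + w.len ≤ m := lt_succ.1 hlen
    obtain ⟨g1, v, hv, g2, g3⟩ := h4 M R lam (k + 1) m N y hlam hy hmN hinc x hx w hw hle2
    have g4 := (mem_W.1 g1).1
    have g5 : (Phi lam y x).len + 1 + v.len < n := by
      rw [g4, g2]
      exact lt_of_le_of_lt (hle _ hle2) hmn
    refine ⟨v, ?_, g5, g3⟩
    refine mem_Wlt.2 ⟨lt_of_le_of_lt ?_ g5, (mem_Wlt.1 hv).2⟩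
    exact le_add_self
  · intro a _ z hz z' hz' h
    have hz1 := mem_Wlt.1 hz
    exact (h2 M R lam y z hlam (hyl z hz1.1) (hmono z hz1.1)).2 k a z' h

end Pool.Agent.OVW
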