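import Pool.Agent.OVW.StmtsB14

/-! # PHW: `Phi` commutes with the substitution of the variable -/

set_option autoImplicit false

namespace Pool.Agent.OVW

open Classical

set_option linter.unusedSectionVars false

namespace PHW

variable {M : Type} [Arith M] [HasWorld M]

/-- The letters of `Phi`. -/
theorem letters (h1 : Stmt_B_INS) (R : Set (M → M)) [IsWorld R] {lam : M → M} {y z : Wd M}
    (hl : Rec R lam) (hy : lam z.len ≤ y.len) (hm : ∀ j ≤ z.len, ∀ i < j, lam i < lam j) :
    (Phi lam y z).len = lam z.len ∧ (∀ j < z.len, (Phi lam y z).get (lam j) = z.get j) ∧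
    ∀ i < lam z.len, (∀ j < z.len, lam j ≠ i) → (Phi lam y z).get i = y.get i :=
  (h1 M R lam y z hl (fun j hj => hm j hj.le)).2.2.2 (fun i hi => hm z.len le_rfl i hi) hy

end PHW

theorem B_PHW_thm (h1 : Stmt_B_INS) : Stmt_B_PHW := by
  intro M _ _ R _ lam y z hl hy hm
  obtain ⟨p1, p2, p3⟩ := PHW.letters h1 R hl hy hm
  constructor
  · intro κ c hκ
    have hzl : (wsub κ z c).len = z.len := len_wsub κ z c
    obtain ⟨q1, q2, q3⟩ := PHW.letters h1 R (y := y) (z := wsub κ z c) hl (by rw [hzl]; exact hy)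
      (by rw [hzl]; exact hm)
    rw [hzl] at q1 q2 q3
    apply Wd.ext'
    · rw [len_wsub, p1, q1]
    · intro i hi
      rw [len_wsub] at hi
      rw [get_wsub hi]
      rw [p1] at hi
      by_cases hj : ∃ j < z.len, lam j = i
      · obtain ⟨j, hj, rfl⟩ := hj
        rw [p2 j hj, q2 j hj, get_wsub hj]
      · have hj' : ∀ j < z.len, lam j ≠ i := fun j h1 h2 => hj ⟨j, h1, h2⟩
        rw [p3 i hi hj', q3 i hi hj', if_neg (hκ i (hi.trans_le hy))]
  · intro b c z' hzz
    have hzl : z'.len = z.len := by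
      have := congrArg (fun u : Wd M => u.len) hzz
      simp only [len_wsub] at this
      exact this.symm
    obtain ⟨q1, q2, q3⟩ := PHW.letters h1 R (y := y) (z := z') hl (by rw [hzl]; exact hy)
      (by rw [hzl]; exact hm)
    rw [hzl] at q1 q2 q3
    apply Wd.ext'
    · rw [len_wsub, len_wsub, p1, q1]
    · intro i hi
      rw [len_wsub, p1] at hi
      rw [get_wsub (by rw [p1]; exact hi), get_wsub (by rw [q1]; exact hi)]
      by_cases hj : ∃ j < z.len, lam j = i
      · obtain ⟨j, hj, rfl⟩ := hj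
        rw [p2 j hj, q2 j hj]
        have h2 := congrArg (fun u : Wd M => u.get j) hzz
        change (wsub b z c).get j = (wsub b z' c).get j at h2
        rw [get_wsub hj, get_wsub (by rw [hzl]; exact hj)] at h2
        exact h2
      · have hj' : ∀ j < z.len, lam j ≠ i := fun j h1 h2 => hj ⟨j, h1, h2⟩
        rw [p3 i hi hj', q3 i hi hj']

end Pool.Agent.OVW
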