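import Pool.Agent.OVW.StmtsB14

/-!
# OVW, block B, SEL: choice of the word `s`
-/

set_option autoImplicit false
set_option linter.unusedSectionVars false

namespace Pool.Agent.OVW

open Classical

namespace SEL

variable {M : Type} [Arith M] [HasWorld M] {R : Set (M → M)} [IsWorld R] {α β γ δ : Type}
variable [Cod M α] [Cod M β] [Cod M γ] [Cod M δ]

theorem hsum_havg {S : FSet M α} {L : FSet M β} {f : β → α → KK M}
    (hf : Rec R (fun x : β × α => f x.1 x.2)) :
    hsum L (fun l => havg S (fun s => f l s)) = havg S (fun s => hsum L (fun l => f l s)) := by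
  have e : hsum L (fun l => havg S (fun s => f l s))
      = hsum L (fun l => hsum S (fun s => f l s) * (S.card : KK M)⁻¹) := by
    apply hsum_congr
    intro l _
    rw [havg, div_eq_mul_inv]
  rw [e, hsum_mul_right (R := R) _ (by fun_prop), hsum_comm (R := R) hf, havg, div_eq_mul_inv]

theorem card_filter_eq {S : FSet M α} {p : α → Prop} (hp : Rec R p) :
    hsum S (fun a => if p a then (1 : KK M) else 0) = (S.filter p).card := by
  rw [← hsum_filter (R := R) hp (by fun_prop), hsum_const, mul_one]

theorem card_filter_ge {S : FSet M α} {p : α → Prop} {F : α → KK M} {c : KK M} {h : M}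
    (hp : Rec R p) (hF : Rec R F) (hc : 0 < c) (h1 : ∀ a ∈ S, p a → F a ≤ 1)
    (h2 : ∀ a ∈ S, ¬ p a → F a ≤ c) (hsum0 : 2 * c * S.card ≤ hsum S F)
    (hh : (h : KK M) ≤ c * S.card) : h ≤ (S.filter p).card := by
  have e1 : hsum S F ≤ hsum S (fun a => (if p a then (1 : KK M) else 0) + c) := by
    apply hsum_le_hsum (R := R) hF (by fun_prop)
    intro a ha
    by_cases hpa : p a
    · rw [if_pos hpa]
      exact (h1 a ha hpa).trans (le_add_of_nonneg_right hc.le)
    · rw [if_neg hpa, zero_add]
      exact h2 a ha hpa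
  rw [hsum_add (R := R) (by fun_prop) (by fun_prop), card_filter_eq (R := R) hp, hsum_const] at e1
  have e2 : (h : KK M) ≤ (S.filter p).card := by
    nlinarith [e1, hsum0, hh]
  exact cK_le.1 e2

end SEL

open SEL in
theorem B_SEL_thm (h1 : Stmt_B_MXM) (h2 : Stmt_B_MXA) (h3 : Stmt_B_NOB) : Stmt_B_SEL := by
  intro M _ _ R _ k a N h β Q G L hQ hG hk ha hβ hh hins hL hcard hP
  have key : ∀ l ∈ L, β / 2 ≤ havg (W (k + 1) N) (fun s => (if s.get l ≠ k then (1 : KK M) else 0) *
      hpr (W k N) (fun u => Q (mix k s (u.take l)) ∧ G (mix k s u))) := by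
    intro l hl
    have hlN := hL l hl
    have e1 := h3 M R k a N l β Q G hQ hG ha hlN hins (hP l hl)
    refine e1.trans (le_of_eq ?_)
    unfold hpr
    rw [← h2 M R k N _ (by fun_prop) hk]
    apply havg_congr
    intro s hs
    rw [← havg_mul_left (R := R) _ (by fun_prop)]
    apply havg_congr
    intro u hu
    have hu' := mem_W.1 hu
    obtain ⟨_, m2, m3⟩ := (h1 M R k N s hs).1 u (by rw [hu'.1]; exact hu) (le_of_eq hu'.1)
    beta_reduce
    rw [m3 l (by rw [hu'.1]; exact hlN.le)]
    have m4 := m2 l (by rw [hu'.1]; exact hlN)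
    by_cases hsl : s.get l = k
    · rw [if_neg, if_neg, zero_mul]
      · exact not_not.2 hsl
      · rintro ⟨hne, _⟩
        exact hne (m4.2 hsl)
    · rw [if_pos (show s.get l ≠ k from hsl), one_mul]
      congr 1
      apply propext
      constructor
      · rintro ⟨_, h⟩; exact h
      · intro h; exact ⟨fun h' => hsl (m4.1 h'), h⟩
  -- average over the levels
  have hne : ∃ s, s ∈ W (k + 1) N := W_nonempty (lt_of_lt_of_le hk (le_self_add)) N
  have key2 : (β / 2) * L.card ≤ havg (W (k + 1) N) (fun s => hsum L (fun l =>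
      (if s.get l ≠ k then (1 : KK M) else 0) *
      hpr (W k N) (fun u => Q (mix k s (u.take l)) ∧ G (mix k s u)))) := by
    rw [← hsum_havg (R := R) (by fun_prop), mul_comm, ← hsum_const]
    exact hsum_le_hsum (R := R) (by fun_prop) (by fun_prop) key
  obtain ⟨s, hs, hs2⟩ := exists_le_of_le_havg (R := R) (by fun_prop) hne key2
  have hβ4 : 0 < β / 4 := by positivity
  have hp : Rec R (fun l => s.get l ≠ k ∧
      β / 4 ≤ hpr (W k N) (fun u => Q (mix k s (u.take l)) ∧ G (mix k s u))) := by fun_prop
  refine ⟨s, hs, L.filter (fun l => s.get l ≠ k ∧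
      β / 4 ≤ hpr (W k N) (fun u => Q (mix k s (u.take l)) ∧ G (mix k s u))), ?_, ?_, ?_⟩
  · intro l hl
    exact ((mem_filter hp).1 hl).1
  · refine card_filter_ge (R := R) (c := β / 4) hp
      (F := fun l => (if s.get l ≠ k then (1 : KK M) else 0) *
        hpr (W k N) (fun u => Q (mix k s (u.take l)) ∧ G (mix k s u)))
      (by fun_prop) hβ4 ?_ ?_ ?_ ?_
    · intro l hl hpl
      show (if s.get l ≠ k then (1 : KK M) else 0) * _ ≤ _
      rw [if_pos hpl.1, one_mul]
      exact hpr_le_one (R := R) (by fun_prop)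
    · intro l hl hpl
      show (if s.get l ≠ k then (1 : KK M) else 0) * _ ≤ _
      by_cases hsl : s.get l = k
      · rw [if_neg (not_not.2 hsl), zero_mul]
        exact hβ4.le
      · rw [if_pos (show s.get l ≠ k from hsl), one_mul]
        by_contra hcon
        exact hpl ⟨hsl, (not_le.1 hcon).le⟩
    · refine le_trans (le_of_eq ?_) hs2
      ring
    · have h4 : (4 : KK M) / β * h ≤ L.card := hcard
      have : β / 4 * (4 / β * h) ≤ β / 4 * L.card := mul_le_mul_of_nonneg_left h4 hβ4.le
      refine le_trans (le_of_eq ?_) this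
      field_simp
  · intro l hl
    exact ((mem_filter hp).1 hl).2

end Pool.Agent.OVW
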