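import Pool.Agent.OVW.B14.DCP
import Pool.Agent.OVW.B14.INS
import Pool.Agent.OVW.B14.PHW
import Pool.Agent.OVW.B14.PHM
import Pool.Agent.OVW.B14.PHC
import Pool.Agent.OVW.B14.PHL
import Pool.Agent.OVW.B14.PHT
import Pool.Agent.OVW.B14.PHA
import Pool.Agent.OVW.B14.MXM
import Pool.Agent.OVW.B14.MXA
import Pool.Agent.OVW.B14.NOB
import Pool.Agent.OVW.B14.SEL
import Pool.Agent.OVW.B14.B1
import Pool.Agent.OVW.B14.B2
import Pool.Agent.OVW.B14.B3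
import Pool.Agent.OVW.B14.B4
import Pool.Agent.OVW.StmtsB5c

/-!
# OVW, block B, Lemmas 1 to 4: assembly
-/

set_option autoImplicit false

namespace Pool.Agent.OVW

theorem b14_DCP : Stmt_B_DCP := B_DCP_thm
theorem b14_INS : Stmt_B_INS := B_INS_thm
theorem b14_PHW : Stmt_B_PHW := B_PHW_thm b14_INS
theorem b14_PHM : Stmt_B_PHM := B_PHM_thm b14_INS
theorem b14_PHC : Stmt_B_PHC := B_PHC_thm b14_INS
theorem b14_PHL : Stmt_B_PHL := B_PHL_thm b14_PHW b14_PHM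
theorem b14_PHT : Stmt_B_PHT := B_PHT_thm b14_PHW b14_PHM b14_PHL
theorem b14_PHA : Stmt_B_PHA := B_PHA_thm b14_INS
theorem b14_MXM : Stmt_B_MXM := B_MXM_thm
theorem b14_MXA : Stmt_B_MXA := B_MXA_thm
theorem b14_NOB : Stmt_B_NOB := B_NOB_thm
theorem b14_SEL : Stmt_B_SEL := B_SEL_thm b14_MXM b14_MXA b14_NOB

/-- Lemma 1. -/
theorem b14_L1 : Stmt_B1 := B1_thm b14_DCP b14_PHL b14_PHA
/-- Lemma 2. -/
theorem b14_L2 : Stmt_B2 := B2_thm b14_DCP
/-- Lemma 3. -/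
theorem b14_L3 : Stmt_B3 := B3_thm b14_L1
/-- Lemma 4. -/
theorem b14_L4 : Stmt_B4 := B4_thm b14_L3 b14_MXM b14_SEL

/-- Lemma 4 in the form used for Lemma 5. -/
theorem stmtL4 {M : Type} [Arith M] [HasWorld M] (R : Set (M → M)) [IsWorld R] : StmtL4 R :=
  fun k a N h β Q G L hk ha hβ hh hD hQ hG hins hL hcard hP =>
    b14_L4 M R k a h N β Q G L hk hβ hh hD ha hQ hG hins hL hcard hP

end Pool.Agent.OVW
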