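import Pool.Agent.OVW.StmtsB14

/-!
# OVW, block B, Lemma 3 (one top level)
-/

set_option autoImplicit false
set_option linter.unusedSectionVars false

namespace Pool.Agent.OVW

open Classical

theorem B3_thm (h1 : Stmt_B1) : Stmt_B3 := by
  intro M _ _ R _ κ h N c Q G L hκ hh hD hQ hG hL hcard hP
  -- for every level choose the end of the word
  have hex : ∀ l : M, l ∈ L → ∃ f : Wd M, f ∈ W κ (N - l) ∧
      c ≤ hpr (W κ l) (fun x => Q x ∧ G (x ++ f)) := by
    intro l hl
    have hlN := hL l hl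
    have e := hP l hl
    have hN : N = l + (N - l) := (add_tsub_cancel_of_le hlN.le).symm
    unfold hpr at e
    rw [hN, havg_W_add (R := R) κ l (N - l) (by fun_prop), havg_comm (R := R) (by fun_prop)] at e
    obtain ⟨f, hf, hf2⟩ := exists_le_of_le_havg (R := R) (by fun_prop) (W_nonempty hκ _) e
    refine ⟨f, hf, hf2.trans (le_of_eq ?_)⟩
    unfold hpr
    apply havg_congr
    intro x hx
    beta_reduce
    rw [take_append_left (mem_W.1 hx).1]
  obtain ⟨f, hf, hf2⟩ := Rec.choice_on (R := R) (d := fun l : M => l ∈ L)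
    (p := fun (l : M) (f : Wd M) => f ∈ W κ (N - l) ∧ c ≤ hpr (W κ l) (fun x => Q x ∧ G (x ++ f)))
    (by fun_prop) (by fun_prop) hex
  obtain ⟨e, he, he1, he2, -⟩ := exists_enum R L
  have hav : c ≤ havg (rng h) (fun i => havg (W κ (e i))
      (fun x => ind M ((fun y : Wd M => Q y ∧ G (y ++ f y.len)) x))) := by
    apply le_havg (R := R) (by fun_prop) ⟨0, mem_rng.2 hh⟩
    intro i hi
    have hi' := mem_rng.1 hi
    have := (hf2 (e i) (he1 i (lt_of_lt_of_le hi' hcard))).2
    refine this.trans (le_of_eq ?_)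
    unfold hpr
    apply havg_congr
    intro x hx
    beta_reduce
    rw [(mem_W.1 hx).1]
    rfl
  obtain ⟨i, j, hij, hjh, x, hx, w, hw, hlen, hline⟩ := h1 M R κ h c e
    (fun y : Wd M => Q y ∧ G (y ++ f y.len)) hκ hh hD he (by fun_prop)
    (fun j hj i hi => he2 i j hi (lt_of_lt_of_le hj hcard)) hav
  have hiL := he1 i (lt_of_lt_of_le (lt_trans hij hjh) hcard)
  have hjL := he1 j (lt_of_lt_of_le hjh hcard)
  obtain ⟨hfW, -⟩ := hf2 (e j) hjL
  have hx' := mem_W.1 hx
  have hw' := mem_Wlt.1 hw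
  have hfl := (mem_W.1 hfW).1
  have hjN := hL _ hjL
  have hlen2 : e i + 1 + (w ++ f (e j)).len = N := by
    rw [len_append, hfl, ← add_assoc, hlen, add_tsub_cancel_of_le hjN.le]
  have hwlt : w ++ f (e j) ∈ Wlt (κ + 1) N := by
    have m1 : w ∈ W (κ + 1) w.len := mem_W.2 ⟨rfl, hw'.2⟩
    have m2 : f (e j) ∈ W (κ + 1) (N - e j) := W_mono (lt_succ.2 le_rfl).le _ hfW
    have m3 := append_mem_W m1 m2
    refine mem_Wlt.2 ⟨?_, ?_⟩
    · calc (w ++ f (e j)).len < (w ++ f (e j)).len + 1 := lt_succ.2 le_rfl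
        _ ≤ e i + 1 + (w ++ f (e j)).len := by
          rw [add_comm _ (1 : M), add_assoc]; exact le_add_self
        _ = N := hlen2
    · intro t ht
      exact (mem_W.1 m3).2 t (by rwa [← (mem_W.1 m3).1])
  refine ⟨e i, hiL, x, hx, w ++ f (e j), hwlt, hlen2, hline.1.1, ?_⟩
  intro d hd
  have h2 := (hline.2 d hd).2
  have hl2 : (x ++ wsing d ++ wsub κ w d).len = e j := by
    rw [len_append, len_append, len_wsing, len_wsub, hx'.1, hlen]
  rw [hl2] at h2
  rw [wsub_append, wsub_of_no_var d (fun t ht => ne_of_lt ((mem_W.1 hfW).2 t (by rwa [← hfl]))),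
    ← append_assoc]
  exact h2

end Pool.Agent.OVW
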