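import Pool.Agent.OVW.StmtsB14

/-!
# DCP: the density Carlson-Simpson bound for recursive predicates
-/

namespace Pool.Agent.OVW

open Classical

theorem B_DCP_thm : Stmt_B_DCP := by
  intro M _ _ R _ κ δ n E hD hE hF
  obtain ⟨T, hT, hTE⟩ := exists_filter R (Wlt κ n) hE
  have h1 : FW κ n (fun x => ind M (x ∈ T)) = FW κ n (fun x => ind M (E x)) := by
    unfold FW
    refine havg_congr fun l hl => havg_congr fun x hx => ?_
    have h2 : x ∈ Wlt κ n := mem_Wlt_iff.2 ⟨l, mem_rng.1 hl, hx⟩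
    have h3 : x ∈ T ↔ E x := ⟨fun h => ((hTE x).1 h).2, fun h => (hTE x).2 ⟨h2, h⟩⟩
    unfold ind
    by_cases h4 : E x
    · rw [if_pos (h3.2 h4), if_pos h4]
    · rw [if_neg (fun h => h4 (h3.1 h)), if_neg h4]
  rw [← h1]
  refine hD T hT ?_
  rintro x hx w hw hl ⟨h2, h3⟩
  exact hF x hx w hw hl ⟨((hTE _).1 h2).2, fun c hc => ((hTE _).1 (h3 c hc)).2⟩

end Pool.Agent.OVW
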